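import Pool.Agent.V11244.SCFT

/-! Every forcing notion preserves the statement that II wins the strong countable fan
tightness game. -/

namespace Pool.Agent.Results.MP_07c8c2_lc.Preserved

open Pool.Agent.V11244.SCFT

universe u v

/-- **Theorem.** Let `X` be a topological space such that II has a winning strategy in
`G_1(Ω_x,Ω_x)` at every point `x`. Let `P` be any forcing notion (in particular, one which is
strongly proper for stationarily many models). Then every condition of `P` forces that II has a
winning strategy in `G_1(Ω_x,Ω_x)` at every point `x` of `X`, for the topology with the ground
model topology as a base. -/
theorem result (P : Type u) [Preorder P] (X : Type v) [TopologicalSpace X]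
    (h : IIWins X) : ∀ p : P, p ∈ fIIWins P X :=
  fun p => preserved h p

end Pool.Agent.Results.MP_07c8c2_lc.Preserved
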